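import Mathlib

set_option autoImplicit false

/-!
# The transmission problem of linear elasticity with a ball as inclusion
-/

namespace Q97.EL

open MeasureTheory Metric

/-- Euclidean space. -/
abbrev E (d : ℕ) : Type := EuclideanSpace ℝ (Fin d)

/-- The `i`-th unit vector. -/
noncomputable def ev {d : ℕ} (i : Fin d) : E d := EuclideanSpace.single i 1

/-- The derivative in the direction of the `i`-th coordinate. -/
noncomputable def pd {d : ℕ} (f : E d → ℝ) (i : Fin d) (x : E d) : ℝ := fderiv ℝ f x (ev i)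

/-- Divergence of a vector field. -/
noncomputable def divg {d : ℕ} (u : E d → Fin d → ℝ) (x : E d) : ℝ :=
  ∑ i, pd (fun y => u y i) i x

/-- The Lame operator `μ Δu + (λ + μ) ∇(∇·u)`. -/
noncomputable def lame {d : ℕ} (l m : ℝ) (u : E d → Fin d → ℝ) (x : E d) (j : Fin d) : ℝ :=
  m * ∑ i, pd (pd (fun y => u y j) i) i x + (l + m) * pd (divg u) j x

/-- The conormal derivative `λ (∇·u) N + μ (∇u + ∇uᵀ) N` at the point `x`. -/
noncomputable def conormal {d : ℕ} (l m : ℝ) (u : E d → Fin d → ℝ) (N x : E d) (j : Fin d) : ℝ :=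
  l * divg u x * N j + m * ∑ i, (pd (fun y => u y j) i x + pd (fun y => u y i) j x) * N i

/-- Rigid displacements `x ↦ A x + b` with `A` antisymmetric. -/
def IsRigid {d : ℕ} (ψ : E d → Fin d → ℝ) : Prop :=
  ∃ (A : Fin d → Fin d → ℝ) (b : Fin d → ℝ), (∀ i j, A i j = -A j i) ∧
    ∀ x i, ψ x i = ∑ j, A i j * x j + b i

/-- Surface measure of the unit sphere. -/
noncomputable def surf (d : ℕ) : Measure (sphere (0 : E d) 1) := (volume : Measure (E d)).toSphere

/-- Orthogonality to the rigid displacements on the unit sphere. -/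
def PerpRigid {d : ℕ} (g : E d → Fin d → ℝ) : Prop :=
  ∀ ψ : E d → Fin d → ℝ, IsRigid ψ →
    ∫ x : sphere (0 : E d) 1, ∑ i, g x i * ψ x i ∂(surf d) = 0

/-- Square integrable fields on the unit sphere orthogonal to the rigid displacements (the values
of `g` off the sphere play no role). -/
def Admissible {d : ℕ} (g : E d → Fin d → ℝ) : Prop :=
  MemLp (fun x : sphere (0 : E d) 1 => g x) 2 (surf d) ∧ PerpRigid g

/-- The field is nonzero as an element of `L²` of the unit sphere. -/
def NonZero {d : ℕ} (g : E d → Fin d → ℝ) : Prop :=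
  ¬ ∀ᵐ x : sphere (0 : E d) 1 ∂(surf d), g x = 0

/-- `u` equals `ui` on the closed ball `D` and `ue` on the rest of the closed unit ball. -/
def IsGlued {d : ℕ} (a : E d) (r : ℝ) (u ue ui : E d → Fin d → ℝ) : Prop :=
  (∀ x ∈ closedBall (0 : E d) 1 \ ball a r, u x = ue x) ∧ ∀ x ∈ closedBall a r, u x = ui x

/-- `ue` solves the background system outside the closed ball `D`, `ui` solves the system of the
inclusion in `D`. -/
def SolvesSystems {d : ℕ} (l m l' m' : ℝ) (a : E d) (r : ℝ) (ue ui : E d → Fin d → ℝ) : Prop :=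
  (∀ x ∈ ball (0 : E d) 1 \ closedBall a r, lame l m ue x = 0) ∧
    ∀ x ∈ ball a r, lame l' m' ui x = 0

/-- The conormal derivatives agree on the boundary of `D`. -/
def MatchesTraction {d : ℕ} (l m l' m' : ℝ) (a : E d) (r : ℝ) (ue ui : E d → Fin d → ℝ) : Prop :=
  ∀ x ∈ sphere a r, conormal l' m' ui (r⁻¹ • (x - a)) x = conormal l m ue (r⁻¹ • (x - a)) x

/-- The conormal derivative of `ue` on the unit sphere is `g`. -/
def HasTraction {d : ℕ} (l m : ℝ) (g ue : E d → Fin d → ℝ) : Prop :=
  ∀ x ∈ sphere (0 : E d) 1, conormal l m ue x x = g x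

/-- `u` is a (classical) solution of the transmission problem for the unit ball `Ω`, the inclusion
`D = B(a, r)`, background constants `(l, m)`, inclusion constants `(l', m')` and the boundary
datum `g`. -/
def IsSolution {d : ℕ} (l m l' m' : ℝ) (a : E d) (r : ℝ) (g u : E d → Fin d → ℝ) : Prop :=
  ∃ ue ui : E d → Fin d → ℝ, ContDiff ℝ 2 ue ∧ ContDiff ℝ 2 ui ∧ IsGlued a r u ue ui ∧
    SolvesSystems l m l' m' a r ue ui ∧ MatchesTraction l m l' m' a r ue ui ∧
    HasTraction l m g ue ∧ PerpRigid u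

/-- The ball `B(a, r)` is an admissible inclusion in the unit ball. -/
def IsInclusion {d : ℕ} (a : E d) (r : ℝ) : Prop := 0 < r ∧ closedBall a r ⊆ ball 0 1

end Q97.EL
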