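import Pool.Agent.Q97.EL.Lame

set_option autoImplicit false

/-!
# A divergence-free linear displacement
-/

namespace Q97.EL

open MeasureTheory Metric Set Pointwise

section Sphere

variable {d : ℕ}

/-- The map of the unit sphere induced by a linear isometry. -/
noncomputable def sph (R : E d ≃ₗᵢ[ℝ] E d) (x : sphere (0 : E d) 1) : sphere (0 : E d) 1 :=
  ⟨R x, by
    have h := x.2
    rw [mem_sphere_zero_iff_norm] at h ⊢
    rw [R.norm_map, h]⟩

theorem sph_coe (R : E d ≃ₗᵢ[ℝ] E d) (x : sphere (0 : E d) 1) : ((sph R x : sphere (0 : E d) 1) : E d) = R x :=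
  rfl

theorem continuous_sph (R : E d ≃ₗᵢ[ℝ] E d) : Continuous (sph R) :=
  Continuous.subtype_mk (R.continuous.comp continuous_subtype_val) _

theorem measurePreserving_sph (R : E d ≃ₗᵢ[ℝ] E d) :
    MeasurePreserving (sph R) (surf d) (surf d) := by
  refine ⟨(continuous_sph R).measurable, ?_⟩
  ext s hs
  rw [Measure.map_apply (continuous_sph R).measurable hs]
  unfold surf
  rw [Measure.toSphere_apply' _ ((continuous_sph R).measurable hs), Measure.toSphere_apply' _ hs]
  congr 1
  have h1 : Ioo (0 : ℝ) 1 • ((↑) '' (sph R ⁻¹' s) : Set (E d)) =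
      R ⁻¹' (Ioo (0 : ℝ) 1 • ((↑) '' s : Set (E d))) := by
    ext x
    constructor
    · rintro ⟨c, hc, _, ⟨y, hy, rfl⟩, rfl⟩
      refine ⟨c, hc, R y, ⟨sph R y, hy, rfl⟩, ?_⟩
      exact (R.map_smul c _).symm
    · rintro ⟨c, hc, _, ⟨y, hy, rfl⟩, hx⟩
      refine ⟨c, hc, R.symm y, ⟨sph R.symm y, ?_, rfl⟩, ?_⟩
      · have : sph R (sph R.symm y) = y := by
          apply Subtype.ext
          rw [sph_coe, sph_coe, LinearIsometryEquiv.apply_symm_apply]
        rw [mem_preimage, this]
        exact hy
      · have hx' : c • (y : E d) = R x := hx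
        change c • R.symm y = x
        rw [← R.symm.map_smul, hx', LinearIsometryEquiv.symm_apply_apply]
  rw [h1]
  exact R.measurePreserving.measure_preimage_emb R.toHomeomorph.measurableEmbedding _

theorem integral_odd (R : E d ≃ₗᵢ[ℝ] E d) (f : sphere (0 : E d) 1 → ℝ)
    (hf : ∀ x, f (sph R x) = -f x) : ∫ x, f x ∂(surf d) = 0 := by
  have hme : MeasurableEmbedding (sph R) := by
    let e : sphere (0 : E d) 1 ≃ₜ sphere (0 : E d) 1 :=
      { toFun := sph R
        invFun := sph R.symm
        left_inv := fun x => by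
          apply Subtype.ext
          rw [sph_coe, sph_coe, LinearIsometryEquiv.symm_apply_apply]
        right_inv := fun x => by
          apply Subtype.ext
          rw [sph_coe, sph_coe, LinearIsometryEquiv.apply_symm_apply]
        continuous_toFun := continuous_sph R
        continuous_invFun := continuous_sph R.symm }
    exact e.measurableEmbedding
  have h1 := (measurePreserving_sph R).integral_comp hme f
  simp_rw [hf] at h1
  rw [integral_neg] at h1
  linarith

/-- The reflection that changes the sign of the `i`-th coordinate. -/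
noncomputable def refl (i : Fin d) : E d ≃ₗᵢ[ℝ] E d :=
  ((Submodule.span ℝ {ev i}).reflection).trans (LinearIsometryEquiv.neg ℝ)

theorem norm_ev (i : Fin d) : ‖(ev i : E d)‖ = 1 := by
  unfold ev
  rw [PiLp.norm_single, norm_one]

theorem inner_ev (i : Fin d) (x : E d) : inner ℝ (ev i : E d) x = x i := by
  unfold ev
  rw [EuclideanSpace.inner_single_left]
  simp

theorem refl_apply (i : Fin d) (x : E d) : refl i x = x - (2 * x i) • ev i := by
  unfold refl
  rw [LinearIsometryEquiv.trans_apply, LinearIsometryEquiv.coe_neg,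
    Submodule.reflection_singleton_apply, norm_ev, inner_ev]
  simp only [RCLike.ofReal_real_eq_id, id_eq, one_pow, div_one]
  rw [two_mul, add_smul, two_smul]
  abel

theorem ev_apply (i j : Fin d) : (ev i : E d) j = if j = i then 1 else 0 := by
  unfold ev
  rw [PiLp.single_apply]

theorem refl_self (i : Fin d) (x : E d) : (refl i x) i = -x i := by
  rw [refl_apply, PiLp.sub_apply, PiLp.smul_apply, ev_apply, if_pos rfl, smul_eq_mul]
  ring

theorem refl_ne (i : Fin d) {j : Fin d} (hj : j ≠ i) (x : E d) : (refl i x) j = x j := by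
  rw [refl_apply, PiLp.sub_apply, PiLp.smul_apply, ev_apply, if_neg hj, smul_zero, sub_zero]

/-- `∫ x_i (A x + b)_i = 0` for antisymmetric `A`. -/
theorem integral_coord (i : Fin d) {ψ : E d → Fin d → ℝ} (hψ : IsRigid ψ) :
    ∫ x : sphere (0 : E d) 1, (x : E d) i * (ψ x) i ∂(surf d) = 0 := by
  obtain ⟨A, b, hA, hψ⟩ := hψ
  apply integral_odd (refl i)
  intro x
  have h1 : A i i = 0 := by
    have h2 := hA i i
    linarith
  rw [sph_coe, refl_self, hψ, hψ]
  have h2 : ∑ j, A i j * (refl i (x : E d)) j = ∑ j, A i j * (x : E d) j := by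
    apply Finset.sum_congr rfl
    intro j _
    by_cases hj : j = i
    · rw [hj, h1, zero_mul, zero_mul]
    · rw [refl_ne i hj]
  rw [h2]
  ring

instance : IsFiniteMeasure (surf d) := by
  unfold surf
  infer_instance

instance : Measure.IsOpenPosMeasure (surf d) := by
  unfold surf
  infer_instance

theorem continuous_coord (i : Fin d) : Continuous (fun x : E d => x i) :=
  (EuclideanSpace.proj i).continuous

theorem IsRigid.continuous {ψ : E d → Fin d → ℝ} (hψ : IsRigid ψ) (i : Fin d) :
    Continuous (fun x => ψ x i) := by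
  obtain ⟨A, b, _, h⟩ := hψ
  have h1 : (fun x => ψ x i) = fun x : E d => ∑ j, A i j * x j + b i := funext fun x => h x i
  rw [h1]
  exact (continuous_finsetSum _ fun j _ => continuous_const.mul (continuous_coord j)).add
    continuous_const

end Sphere

section Field

variable {d : ℕ} (s : Fin d → ℝ)

/-- The linear displacement `(s_i x_i)`. -/
noncomputable def Lam (x : E d) (i : Fin d) : ℝ := s i * x i

theorem pd_Lam (j i : Fin d) (x : E d) :
    pd (fun y => Lam s y j) i x = if i = j then s j else 0 := by
  unfold pd Lam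
  have h1 : HasFDerivAt (fun y : E d => s j * y j) (s j • (EuclideanSpace.proj j : E d →L[ℝ] ℝ)) x :=
    (EuclideanSpace.proj j : E d →L[ℝ] ℝ).hasFDerivAt.const_mul (s j)
  rw [h1.fderiv]
  change s j * (ev i : E d) j = _
  rw [ev_apply]
  by_cases h : i = j
  · rw [if_pos h, if_pos h.symm, mul_one]
  · rw [if_neg h, if_neg (Ne.symm h), mul_zero]

theorem pd_const (c : ℝ) (i : Fin d) (x : E d) : pd (fun _ => c) i x = 0 := by
  unfold pd
  rw [fderiv_fun_const]
  rfl

theorem divg_Lam (hs : ∑ i, s i = 0) (x : E d) : divg (Lam s) x = 0 := by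
  unfold divg
  have h1 : ∀ i, pd (fun y => Lam s y i) i x = s i := by
    intro i
    rw [pd_Lam, if_pos rfl]
  simp_rw [h1]
  exact hs

theorem lame_Lam (hs : ∑ i, s i = 0) (l m : ℝ) (x : E d) : lame l m (Lam s) x = 0 := by
  funext j
  unfold lame
  have h1 : ∀ i, pd (pd (fun y => Lam s y j) i) i x = 0 := by
    intro i
    have h2 : pd (fun y => Lam s y j) i = fun _ => if i = j then s j else 0 :=
      funext fun x => pd_Lam s j i x
    rw [h2]
    exact pd_const _ _ _
  have h3 : divg (Lam s) = fun _ => 0 := funext (divg_Lam s hs)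
  rw [Finset.sum_eq_zero (fun i _ => h1 i), h3, pd_const, mul_zero, mul_zero, add_zero]
  rfl

theorem conormal_Lam (hs : ∑ i, s i = 0) (l m : ℝ) (N x : E d) :
    conormal l m (Lam s) N x = fun j => 2 * m * (s j * N j) := by
  funext j
  unfold conormal
  rw [divg_Lam s hs, mul_zero, zero_mul, zero_add]
  have h1 : ∀ i, (pd (fun y => Lam s y j) i x + pd (fun y => Lam s y i) j x) * N i =
      if i = j then 2 * (s j * N j) else 0 := by
    intro i
    rw [pd_Lam, pd_Lam]
    by_cases h : i = j
    · rw [if_pos h, if_pos h.symm, if_pos h, h]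
      ring
    · rw [if_neg h, if_neg (Ne.symm h), if_neg h, add_zero, zero_mul]
  simp_rw [h1]
  rw [Finset.sum_ite_eq', if_pos (Finset.mem_univ _)]
  ring

theorem continuous_Lam : Continuous (Lam s) :=
  continuous_pi fun i => continuous_const.mul (continuous_coord i)

theorem contDiff_Lam : ContDiff ℝ 2 (Lam s) := by
  apply contDiff_pi.mpr
  intro i
  exact contDiff_const.mul (EuclideanSpace.proj i : E d →L[ℝ] ℝ).contDiff

theorem perp_Lam (c : ℝ) : PerpRigid (fun x i => c * Lam s x i) := by
  intro ψ hψ
  have hint : ∀ i : Fin d, Integrable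
      (fun x : sphere (0 : E d) 1 => (x : E d) i * (ψ x) i) (surf d) := by
    intro i
    have hc : Continuous (fun x : sphere (0 : E d) 1 => (x : E d) i * (ψ x) i) :=
      ((continuous_coord i).comp continuous_subtype_val).mul
        ((hψ.continuous i).comp continuous_subtype_val)
    exact hc.integrable_of_hasCompactSupport (HasCompactSupport.of_compactSpace _)
  have h1 : ∀ x : sphere (0 : E d) 1, ∑ i, c * Lam s x i * ψ x i =
      ∑ i, (c * s i) * ((x : E d) i * ψ x i) := by
    intro x
    apply Finset.sum_congr rfl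
    intro i _
    unfold Lam
    ring
  simp_rw [h1]
  rw [integral_finsetSum _ (fun i _ => (hint i).const_mul _)]
  apply Finset.sum_eq_zero
  intro i _
  rw [integral_const_mul, integral_coord i hψ, mul_zero]

/-- The boundary datum. -/
noncomputable def datum (m : ℝ) (x : E d) (i : Fin d) : ℝ := 2 * m * Lam s x i

theorem continuous_datum (m : ℝ) : Continuous (datum s m) :=
  continuous_pi fun i => continuous_const.mul (continuous_const.mul (continuous_coord i))

theorem admissible_datum (m : ℝ) : Admissible (datum s m) := by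
  refine ⟨?_, perp_Lam s (2 * m)⟩
  exact ((continuous_datum s m).comp continuous_subtype_val).memLp_of_hasCompactSupport
    (HasCompactSupport.of_compactSpace _)

theorem datum_ne {m : ℝ} (hm : 0 < m) {i : Fin d} (hi : s i ≠ 0) : NonZero (datum s m) := by
  intro h
  have h1 : (fun x : sphere (0 : E d) 1 => datum s m x) = fun _ => 0 :=
    (Continuous.ae_eq_iff_eq (surf d) ((continuous_datum s m).comp continuous_subtype_val)
      continuous_const).mp h
  have hmem : (ev i : E d) ∈ sphere (0 : E d) 1 := by
    rw [mem_sphere_zero_iff_norm]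
    exact norm_ev i
  have h2 := congrFun (congrFun h1 ⟨ev i, hmem⟩) i
  have h3 : 2 * m * (s i * (ev i : E d) i) = 0 := h2
  rw [ev_apply, if_pos rfl, mul_one] at h3
  rcases mul_eq_zero.mp h3 with h4 | h4
  · linarith
  · exact hi h4

theorem isSolution_Lam (hs : ∑ i, s i = 0) (l m l' : ℝ) (a : E d) (r : ℝ) :
    IsSolution l m l' m a r (datum s m) (Lam s) := by
  refine ⟨Lam s, Lam s, contDiff_Lam s, contDiff_Lam s,
    ⟨fun _ _ => rfl, fun _ _ => rfl⟩, ⟨fun x _ => lame_Lam s hs l m x,
    fun x _ => lame_Lam s hs l' m x⟩, fun x _ => ?_, fun x _ => ?_, ?_⟩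
  · rw [conormal_Lam s hs, conormal_Lam s hs]
  · rw [conormal_Lam s hs]
    rfl
  · have h1 := perp_Lam s 1
    simp_rw [one_mul] at h1
    exact h1

end Field

end Q97.EL
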